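import Mathlib

/-!
# Saturated dg categories over perfect fields of positive characteristic

The data of a saturated dg category `𝒜` over a perfect field `k` of characteristic `p` which enter
the noncommutative Künneth standard conjecture: the ring of correspondences, the topological
periodic cyclic homology `TP`, the periodic cyclic homology `HP`, and the exact sequence
`TP → TP → HP`, whose first map is the multiplication by `p`.
-/

set_option autoImplicit false

namespace Pool.Agent.H938.BK

open TensorProduct

section Predicates

variable {W k A M V N : Type} [CommRing W] [Field k] [Ring A] [AddCommGroup M] [Module W M]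
  [AddCommGroup V] [Module k V] [AddCommGroup N] [Module W N]

/-- the map `red : M → V` is linear along `π : W → k` and commutes with the actions `ρ` and `σ` of
the ring `A` -/
structure IsReduction (π : W →+* k) (ρ : A →+* Module.End W M) (σ : A →+* Module.End k V)
    (red : M →+ V) : Prop where
  smul : ∀ (w : W) (x : M), red (w • x) = π w • red x
  act : ∀ (z : A) (x : M), red (ρ z x) = σ z (red x)

/-- the map `bdry : V → N` is linear along `π : W → k` and commutes with the actions `σ` and `ρ` of
the ring `A` -/
structure IsBoundary (π : W →+* k) (σ : A →+* Module.End k V) (ρ : A →+* Module.End W N)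
    (bdry : V →+ N) : Prop where
  smul : ∀ (w : W) (y : V), bdry (π w • y) = w • bdry y
  act : ∀ (z : A) (y : V), bdry (σ z y) = ρ z (bdry y)

variable (W) in
/-- the sequence `M → M → V → N → N`, whose first and last maps are the multiplication by `p`, is
exact -/
structure IsExact (p : ℕ) (red : M →+ V) (bdry : V →+ N) : Prop where
  ker_red : ∀ x : M, red x = 0 ↔ ∃ y : M, x = (p : W) • y
  ker_bdry : ∀ y : V, bdry y = 0 ↔ ∃ x : M, red x = y
  range_bdry : ∀ x : N, (p : W) • x = 0 ↔ ∃ y : V, bdry y = x

/-- the supertrace of an endomorphism on `K ⊗_W M` and `K ⊗_W N` is given by `euler` -/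
def TraceFormula (K : Type) [Field K] [Algebra W K] (ρ : A →+* Module.End W M)
    (ρ' : A →+* Module.End W N) (euler : A → ℤ) : Prop :=
  ∀ z : A, (euler z : K) = LinearMap.trace K (K ⊗[W] M) ((ρ z).baseChange K) -
    LinearMap.trace K (K ⊗[W] N) ((ρ' z).baseChange K)

/-- the operator of the correspondence `∑ c_z z` with coefficients in `F` on `L ⊗_k V`, where `σ`
is the action of the correspondences on `V` -/
noncomputable def operator (F L : Type) [Field F] [Field L] [Algebra F L] [Algebra k L]
    (σ : A →+* Module.End k V) (c : A →₀ F) : Module.End L (L ⊗[k] V) :=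
  ∑ z ∈ c.support, algebraMap F L (c z) • (σ z).baseChange L

/-- `f` is annihilated by `P` and `g` is annihilated by `Q` -/
def Annihilated {L V V' : Type} [Field L] [AddCommGroup V] [Module L V] [AddCommGroup V']
    [Module L V'] (f : Module.End L V) (g : Module.End L V') (P Q : Polynomial L) : Prop :=
  Polynomial.aeval f P = 0 ∧ Polynomial.aeval g Q = 0

end Predicates

/-- A super module over `R` with an action of the ring `A` by even endomorphisms. -/
structure SuperRep (R A : Type) [CommRing R] [Ring A] where
  /-- the even part -/
  Even : Type
  /-- the odd part -/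
  Odd : Type
  [addEven : AddCommGroup Even]
  [addOdd : AddCommGroup Odd]
  [modEven : Module R Even]
  [modOdd : Module R Odd]
  /-- the action on the even part -/
  actEven : A →+* Module.End R Even
  /-- the action on the odd part -/
  actOdd : A →+* Module.End R Odd

attribute [instance] SuperRep.addEven SuperRep.addOdd SuperRep.modEven SuperRep.modOdd

namespace SuperRep

section Field

variable {k A : Type} [Field k] [Ring A] (H : SuperRep k A)

/-- `C_NC` with coefficients in `F`, where `L` contains `F` and `k`: the projector onto the even
part of `L ⊗_k H` is induced by a correspondence with coefficients in `F` -/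
def Kunneth (F L : Type) [Field F] [Field L] [Algebra F L] [Algebra k L] : Prop :=
  ∃ c : A →₀ F, operator F L H.actEven c = 1 ∧ operator F L H.actOdd c = 0

/-- the projector onto the even part of `H` is induced by an integral correspondence -/
def KunnethPrimeField : Prop :=
  ∃ z : A, H.actEven z = 1 ∧ H.actOdd z = 0

/-- some correspondence with coefficients in `L` is annihilated by coprime polynomials on the even
and on the odd part of `L ⊗_k H`; for finite-dimensional `H` this means that its characteristic
polynomials on the two parts are coprime -/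
def Separated (L : Type) [Field L] [Algebra k L] : Prop :=
  ∃ (c : A →₀ L) (P Q : Polynomial L), IsCoprime P Q ∧
    Annihilated (operator L L H.actEven c) (operator L L H.actOdd c) P Q

end Field

section Integral

variable {W A : Type} [CommRing W] [Ring A] (T : SuperRep W A)

/-- `T` has no `p`-torsion -/
def TorsionFree (p : ℕ) : Prop :=
  (∀ x : T.Even, (p : W) • x = 0 → x = 0) ∧ (∀ x : T.Odd, (p : W) • x = 0 → x = 0)

/-- for some `n` prime to `p`, an element of `A` acts on the even part of `K ⊗_W T` as `n` and on
the odd part as `0` -/
def ProjIntegral (p : ℕ) (K : Type) [Field K] [Algebra W K] : Prop :=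
  ∃ (z : A) (n : ℕ), ¬ p ∣ n ∧
    (T.actEven z).baseChange K = (n : Module.End K (K ⊗[W] T.Even)) ∧
    (T.actOdd z).baseChange K = 0

/-- the projector onto the even part of `T` is a `W`-linear combination of operators of elements
of `A` -/
def ProjInSpan : Prop :=
  ∃ c : A →₀ W, (c.sum fun z w => w • T.actEven z) = 1 ∧ (c.sum fun z w => w • T.actOdd z) = 0

end Integral

end SuperRep

/-- The ring of correspondences of a dg category `𝒜` and its realizations. -/
structure Data (W k : Type) [CommRing W] [Field k] where
  /-- the ring `K_0(𝒜^op ⊗ 𝒜)` of the noncommutative correspondences from `𝒜` to itself -/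
  Corr : Type
  [ring : Ring Corr]
  /-- the Euler characteristic of the Hochschild homology of `𝒜` with coefficients in a bimodule -/
  euler : Corr → ℤ
  /-- the topological periodic cyclic homology `TP(𝒜)` -/
  TP : SuperRep W Corr
  /-- the periodic cyclic homology `HP(𝒜)` -/
  HP : SuperRep k Corr
  /-- the reduction `TP_0 → HP^+` modulo `p` -/
  redEven : TP.Even →+ HP.Even
  /-- the reduction `TP_1 → HP^-` modulo `p` -/
  redOdd : TP.Odd →+ HP.Odd
  /-- the boundary map `HP^+ → TP_{-1} = TP_1` -/
  bdryEven : HP.Even →+ TP.Odd
  /-- the boundary map `HP^- → TP_0` -/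
  bdryOdd : HP.Odd →+ TP.Even

attribute [instance] Data.ring

/-- The sequences `TP_i → TP_i → HP_i → TP_(i-1) → TP_(i-1)` are exact and commute with the
correspondences, the modules `TP_i` are finitely generated, and the supertrace of a correspondence
on `TP(𝒜)[1/p]` is an Euler characteristic. -/
structure Data.IsSaturated {W k : Type} [CommRing W] [Field k] (𝒜 : Data W k) (p : ℕ)
    (π : W →+* k) (K : Type) [Field K] [Algebra W K] : Prop where
  finEven : Module.Finite W 𝒜.TP.Even
  finOdd : Module.Finite W 𝒜.TP.Odd
  redEven : IsReduction π 𝒜.TP.actEven 𝒜.HP.actEven 𝒜.redEven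
  redOdd : IsReduction π 𝒜.TP.actOdd 𝒜.HP.actOdd 𝒜.redOdd
  bdryEven : IsBoundary π 𝒜.HP.actEven 𝒜.TP.actOdd 𝒜.bdryEven
  bdryOdd : IsBoundary π 𝒜.HP.actOdd 𝒜.TP.actEven 𝒜.bdryOdd
  exactEven : IsExact W p 𝒜.redEven 𝒜.bdryEven
  exactOdd : IsExact W p 𝒜.redOdd 𝒜.bdryOdd
  lefschetz : TraceFormula K 𝒜.TP.actEven 𝒜.TP.actOdd 𝒜.euler

/-- The data of a saturated dg category over a perfect field `k` of characteristic `p`; here `K` is
the field `W(k)[1/p]` of fractions of the ring `W(k)` of Witt vectors. -/
structure Saturated (p : ℕ) [Fact p.Prime] (k : Type) [Field k] [CharP k p]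
    (K : Type) [Field K] [Algebra (WittVector p k) K] extends Data (WittVector p k) k where
  isSaturated : toData.IsSaturated p WittVector.constantCoeff K

end Pool.Agent.H938.BK
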