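import Mathlib

/-!
Integral functionals from functionals with values in an extension, and integral solutions of
linear systems which are solvable in an extension.
-/

set_option autoImplicit false

namespace Pool.Agent.H938.BK

/-- an additive map to a domain of characteristic zero whose value at `q` is not divisible by `p`
yields an integral functional whose value at `q` is not divisible by `p` -/
theorem exists_hom {Q W : Type} [AddCommGroup Q] [Module.Finite ℤ Q] [CommRing W] [IsDomain W]
    [CharZero W] (p : ℕ) (f : Q →ₗ[ℤ] W) (q : Q) (hq : ¬ (p : W) ∣ f q) :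
    ∃ g : Q →ₗ[ℤ] ℤ, ¬ (p : ℤ) ∣ g q := by
  classical
  have hle : Submodule.torsion ℤ Q ≤ LinearMap.ker f := by
    intro x hx
    rw [Submodule.mem_torsion_iff] at hx
    obtain ⟨a, ha⟩ := hx
    rw [LinearMap.mem_ker]
    have h1 : (a : ℤ) • f x = 0 := by
      rw [← map_smul]
      have h2 : (a : ℤ) • x = 0 := ha
      rw [h2, map_zero]
    rw [← Int.cast_smul_eq_zsmul W, smul_eq_mul] at h1
    rcases mul_eq_zero.1 h1 with h | h
    · exact absurd (Int.cast_eq_zero.1 h) (nonZeroDivisors.ne_zero a.2)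
    · exact h
  let f' := (Submodule.torsion ℤ Q).liftQ f hle
  have : Module.Free ℤ (Q ⧸ Submodule.torsion ℤ Q) := Module.free_of_finite_type_torsion_free'
  let b := Module.Free.chooseBasis ℤ (Q ⧸ Submodule.torsion ℤ Q)
  by_contra hcon
  push Not at hcon
  have hdiv : ∀ i, (p : ℤ) ∣ b.repr (Submodule.mkQ _ q) i := by
    intro i
    exact hcon ((b.coord i).comp (Submodule.mkQ _))
  apply hq
  have h1 : f q = f' (Submodule.mkQ _ q) := by
    rw [Submodule.mkQ_apply, Submodule.liftQ_apply]
  rw [h1, ← b.sum_repr (Submodule.mkQ _ q), map_sum]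
  refine Finset.dvd_sum fun i _ => ?_
  obtain ⟨c, hc⟩ := hdiv i
  rw [map_smul, hc, ← Int.cast_smul_eq_zsmul W, smul_eq_mul, Int.cast_mul, Int.cast_natCast, mul_assoc]
  exact Dvd.intro _ rfl

/-- an integral linear system which is solvable in a domain of characteristic zero in which `p` is
not a unit is solvable with denominators prime to `p` -/
theorem exists_int_solution {D J W : Type} [Fintype J] [CommRing W] [IsDomain W] [CharZero W]
    (p : ℕ) (hp : ¬ IsUnit (p : W)) (e : J → D → ℤ) (t : D → ℤ) (w : J → W)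
    (h : ∀ d, ∑ j, w j * (e j d : W) = (t d : W)) :
    ∃ (z : J → ℤ) (n : ℤ), ¬ (p : ℤ) ∣ n ∧ ∀ d, ∑ j, z j * e j d = n * t d := by
  classical
  let V := (J → ℤ) × ℤ
  let r : D → V := fun d => (fun j => e j d, t d)
  let Γ : Submodule ℤ V := Submodule.span ℤ (Set.range r)
  let F : V →ₗ[ℤ] W :=
    { toFun := fun v => ∑ j, w j * (v.1 j : W) - (v.2 : W)
      map_add' := fun v v' => by
        have h1 : ∀ j, (v + v').1 j = v.1 j + v'.1 j := fun j => rfl
        have h2 : (v + v').2 = v.2 + v'.2 := rfl
        simp only [h1, h2, Int.cast_add, mul_add, Finset.sum_add_distrib]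
        ring
      map_smul' := fun c v => by
        have h1 : ∀ j, (c • v).1 j = c * v.1 j := fun j => rfl
        have h2 : (c • v).2 = c * v.2 := rfl
        have h3 : ∀ x : W, c • x = (c : W) * x := fun x => by
          rw [zsmul_eq_mul]
        rw [eq_intCast, Int.cast_id, h3, mul_sub, Finset.mul_sum]
        simp only [h1, h2, Int.cast_mul]
        congr 1
        exact Finset.sum_congr rfl fun j _ => by ring }
  have hle : Γ ≤ LinearMap.ker F := by
    rw [Submodule.span_le]
    rintro _ ⟨d, rfl⟩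
    rw [SetLike.mem_coe, LinearMap.mem_ker]
    show ∑ j, w j * (e j d : W) - (t d : W) = 0
    rw [h d, sub_self]
  obtain ⟨g, hg⟩ := exists_hom p (Γ.liftQ F hle) (Γ.mkQ (0, 1)) (by
    rw [Submodule.mkQ_apply, Submodule.liftQ_apply]
    show ¬ (p : W) ∣ ∑ j, w j * (((0 : J → ℤ) j : ℤ) : W) - ((1 : ℤ) : W)
    simp only [Pi.zero_apply, Int.cast_zero, mul_zero, Finset.sum_const_zero, Int.cast_one, zero_sub]
    intro hd
    exact hp (isUnit_of_dvd_unit hd isUnit_one.neg))
  refine ⟨fun j => g (Γ.mkQ (Pi.single j 1, 0)), - g (Γ.mkQ (0, 1)), ?_, ?_⟩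
  · rwa [dvd_neg]
  · intro d
    have h1 : Γ.mkQ (r d) = 0 := by
      rw [Submodule.mkQ_apply, Submodule.Quotient.mk_eq_zero]
      exact Submodule.subset_span ⟨d, rfl⟩
    have h2 : r d = ∑ j, e j d • ((Pi.single j 1 : J → ℤ), (0 : ℤ)) + t d • ((0 : J → ℤ), (1 : ℤ)) := by
      refine Prod.ext ?_ ?_
      · rw [Prod.fst_add, Prod.fst_sum, Prod.smul_fst, smul_zero, add_zero]
        funext i
        rw [Finset.sum_apply]
        simp only [Prod.smul_fst, Pi.smul_apply, smul_eq_mul]
        rw [Finset.sum_eq_single i]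
        · rw [Pi.single_eq_same, mul_one]
        · intro j _ hj
          rw [Pi.single_eq_of_ne (Ne.symm hj), mul_zero]
        · intro hi
          exact absurd (Finset.mem_univ i) hi
      · rw [Prod.snd_add, Prod.snd_sum, Prod.smul_snd, smul_eq_mul, mul_one]
        simp only [Prod.smul_snd, smul_zero, Finset.sum_const_zero, zero_add]
        rfl
    have h3 : g (Γ.mkQ (r d)) = 0 := by rw [h1, map_zero]
    rw [h2, map_add, map_sum, map_add, map_sum, map_smul, map_smul] at h3
    simp only [map_smul, smul_eq_mul] at h3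
    have h4 : ∑ j, g (Γ.mkQ (Pi.single j 1, 0)) * e j d = ∑ j, e j d * g (Γ.mkQ (Pi.single j 1, 0)) :=
      Finset.sum_congr rfl fun j _ => mul_comm _ _
    rw [h4]
    linarith

end Pool.Agent.H938.BK
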