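import Mathlib

/-!
A combination of operators which agrees with the even projector modulo `p` yields a combination
which is equal to the even projector.
-/

set_option autoImplicit false

namespace Pool.Agent.H938.BK

theorem one_add_smul_pow {W E : Type} [CommRing W] [Ring E] [Algebra W E] (c : W) (y : E) (m : ℕ) :
    ∃ s : E, (1 + c • y) ^ m = 1 + c • s := by
  induction m with
  | zero => exact ⟨0, by rw [pow_zero, smul_zero, add_zero]⟩
  | succ m ih =>
    obtain ⟨s, hs⟩ := ih
    refine ⟨s + y + s * (c • y), ?_⟩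
    rw [pow_succ, hs, smul_add, smul_add, add_mul, one_mul, mul_add, mul_one, ← smul_mul_assoc]
    abel

/-- successive approximation of the projector `(1, 0)` -/
theorem approx {W E0 E1 : Type} [CommRing W] [Ring E0] [Ring E1] [Algebra W E0] [Algebra W E1]
    (p : W) (B : Subalgebra W (E0 × E1)) (y0 : E0) (y1 : E1)
    (he : ((1 + p • y0, p • y1) : E0 × E1) ∈ B) (m : ℕ) :
    ∃ b ∈ B, ∃ s : E0 × E1, ((1, 0) : E0 × E1) = b + p ^ m • s := by
  refine ⟨1 - (1 - ((1 + p • y0, p • y1) : E0 × E1) ^ m) ^ m, ?_, ?_⟩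
  · exact B.sub_mem B.one_mem (B.pow_mem (B.sub_mem B.one_mem (B.pow_mem he m)) m)
  · obtain ⟨s, hs⟩ := one_add_smul_pow p y0 m
    obtain ⟨t, ht⟩ := one_add_smul_pow (p ^ m) (-(y1 ^ m)) m
    refine ⟨((-s) ^ m, t), ?_⟩
    have h1 : (1 - ((1 + p • y0, p • y1) : E0 × E1) ^ m) ^ m =
        (p ^ m • (-s) ^ m, 1 + p ^ m • t) := by
      refine Prod.ext ?_ ?_
      · rw [Prod.pow_fst, Prod.fst_sub, Prod.pow_fst, Prod.fst_one]
        show (1 - (1 + p • y0) ^ m) ^ m = p ^ m • (-s) ^ m
        rw [hs, sub_add_cancel_left, ← smul_neg, smul_pow]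
      · rw [Prod.pow_snd, Prod.snd_sub, Prod.pow_snd, Prod.snd_one]
        show (1 - (p • y1) ^ m) ^ m = 1 + p ^ m • t
        rw [smul_pow, ← ht, smul_neg, ← sub_eq_add_neg]
    rw [h1]
    refine Prod.ext ?_ ?_
    · rw [Prod.fst_add, Prod.fst_sub, Prod.fst_one, Prod.smul_fst]
      show (1 : E0) = 1 - p ^ m • (-s) ^ m + p ^ m • (-s) ^ m
      rw [sub_add_cancel]
    · rw [Prod.snd_add, Prod.snd_sub, Prod.snd_one, Prod.smul_snd]
      show (0 : E1) = 1 - (1 + p ^ m • t) + p ^ m • t
      rw [sub_add_cancel_left, neg_add_cancel]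

/-- if the projector `(1, 0)` is the limit of elements of `B`, it lies in `B` -/
theorem mem_of_approx {W E : Type} [CommRing W] [IsNoetherianRing W] [IsLocalRing W]
    [AddCommGroup E] [Module W E] [Module.Finite W E] (p : W) (hp : ¬ IsUnit p) (B : Submodule W E)
    (x : E) (h : ∀ m : ℕ, ∃ b ∈ B, ∃ s : E, x = b + p ^ m • s) : x ∈ B := by
  rw [← Submodule.Quotient.mk_eq_zero, ← Submodule.mem_bot W,
    ← Ideal.iInf_pow_smul_eq_bot_of_isLocalRing (M := E ⧸ B) (Ideal.span {p})
      (by rwa [Ne, Ideal.span_singleton_eq_top]), Submodule.mem_iInf]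
  intro m
  obtain ⟨b, hb, s, hs⟩ := h m
  have h1 : (Submodule.Quotient.mk x : E ⧸ B) = p ^ m • Submodule.Quotient.mk s := by
    rw [hs, Submodule.Quotient.mk_add, (Submodule.Quotient.mk_eq_zero B).2 hb, zero_add,
      Submodule.Quotient.mk_smul]
  rw [h1]
  exact Submodule.smul_mem_smul (Ideal.pow_mem_pow (Ideal.mem_span_singleton_self p) m) trivial

/-- an endomorphism of a free module with values in the multiples of `p` is a multiple of `p` -/
theorem exists_div {W M : Type} [CommRing W] [AddCommGroup M] [Module W M] [Module.Free W M]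
    (p : W) (f : Module.End W M) (h : ∀ x, ∃ y, f x = p • y) : ∃ g : Module.End W M, f = p • g := by
  choose s hs using h
  let b := Module.Free.chooseBasis W M
  refine ⟨b.constr W fun i => s (b i), ?_⟩
  apply b.ext
  intro i
  rw [LinearMap.smul_apply, b.constr_basis, hs]

theorem proj_mem_span {W A M0 M1 : Type} [CommRing W] [IsDomain W] [IsNoetherianRing W]
    [IsLocalRing W] [Ring A]
    [AddCommGroup M0] [Module W M0] [Module.Finite W M0] [Module.Free W M0]
    [AddCommGroup M1] [Module W M1] [Module.Finite W M1] [Module.Free W M1]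
    (ρ0 : A →+* Module.End W M0) (ρ1 : A →+* Module.End W M1) (p : W) (hp : ¬ IsUnit p)
    (c : A →₀ W)
    (h0 : ∀ x, ∃ y, (c.sum fun z a => a • ρ0 z) x - x = p • y)
    (h1 : ∀ x, ∃ y, (c.sum fun z a => a • ρ1 z) x = p • y) :
    ((1, 0) : Module.End W M0 × Module.End W M1) ∈
      Submodule.span W (Set.range fun z : A => (ρ0 z, ρ1 z)) := by
  obtain ⟨y0, hy0⟩ := exists_div p ((c.sum fun z a => a • ρ0 z) - 1) h0
  obtain ⟨y1, hy1⟩ := exists_div p (c.sum fun z a => a • ρ1 z) h1
  let φ : A →+* Module.End W M0 × Module.End W M1 := ρ0.prod ρ1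
  have hspan : Submodule.span W (Set.range fun z : A => (ρ0 z, ρ1 z)) =
      Subalgebra.toSubmodule (Algebra.adjoin W (Set.range φ)) := by
    rw [Algebra.adjoin_eq_span]
    congr 1
    have h2 : Set.range φ =
        ((MonoidHom.mrange (φ : A →* Module.End W M0 × Module.End W M1) :
          Submonoid (Module.End W M0 × Module.End W M1)) :
          Set (Module.End W M0 × Module.End W M1)) := by
      rw [MonoidHom.coe_mrange]
      rfl
    rw [h2, Submonoid.closure_eq, ← h2]
    rfl
  rw [hspan]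
  apply mem_of_approx p hp
  intro m
  refine approx p _ y0 y1 ?_ m
  have h2 : ((1 + p • y0, p • y1) : Module.End W M0 × Module.End W M1) =
      c.sum fun z a => a • (ρ0 z, ρ1 z) := by
    rw [← hy0, ← hy1, add_sub_cancel, Finsupp.sum, Finsupp.sum, Finsupp.sum]
    refine Prod.ext ?_ ?_
    · rw [Prod.fst_sum]
      rfl
    · rw [Prod.snd_sum]
      rfl
  have h3 : ((1 + p • y0, p • y1) : Module.End W M0 × Module.End W M1) ∈
      Submodule.span W (Set.range fun z : A => (ρ0 z, ρ1 z)) := by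
    rw [h2]
    exact Submodule.sum_mem _ fun z _ => Submodule.smul_mem _ _ (Submodule.subset_span ⟨z, rfl⟩)
  rw [hspan] at h3
  exact h3

end Pool.Agent.H938.BK
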