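import Pool.Graph.R_pool_sql_team_seeded_1acbe0a2.Y121.CF.Main
import Pool.Agent.H938.BK.Func

/-!
The even projector of a lattice: from coefficients in a local domain to integral coefficients.
-/

set_option autoImplicit false

namespace Pool.Agent.H938.BK

open TensorProduct Polynomial

/-- an endomorphism in characteristic zero, all of whose powers have trace zero, is nilpotent -/
theorem nilpotent_of_trace {K V : Type} [Field K] [CharZero K] [AddCommGroup V] [Module K V]
    [Module.Finite K V] (f : Module.End K V) (h : ∀ n : ℕ, LinearMap.trace K V (f ^ (n + 1)) = 0) :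
    ∃ m : ℕ, f ^ m = 0 := by
  classical
  set b := Module.finBasis K V
  set M := LinearMap.toMatrix b b f with hM
  have hps : Pool.Agent.Y121.CF.ps M = 0 := by
    ext n
    rw [Pool.Agent.Y121.CF.ps, PowerSeries.coeff_mk, map_zero, hM, LinearMap.toMatrix_pow,
      ← LinearMap.trace_eq_matrix_trace K b, h n]
  have h1 := Pool.Agent.Y121.CF.deriv_charpolyRev M
  rw [hps, mul_zero, neg_zero] at h1
  have h2 : ∀ n, M.charpolyRev.coeff (n + 1) = 0 := by
    intro n
    have h3 := congrArg (PowerSeries.coeff n) h1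
    rw [PowerSeries.coeff_derivative, map_zero, Polynomial.coeff_coe] at h3
    rcases mul_eq_zero.1 h3 with h | h
    · exact h
    · exact absurd h (by exact_mod_cast Nat.succ_ne_zero n)
  have h4 : M.charpolyRev = 1 := by
    ext n
    rcases n with _ | n
    · rw [Pool.Agent.Y121.CF.constCoeff_rev, coeff_one_zero]
    · rw [h2, coeff_one, if_neg (Nat.succ_ne_zero n)]
  have h5 : M.charpoly = X ^ M.charpoly.natDegree := by
    have h6 : M.charpoly.reverse = 1 := by rw [Matrix.reverse_charpoly, h4]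
    ext n
    have h7 : M.charpoly.coeff n = M.charpoly.reverse.coeff (revAt M.charpoly.natDegree n) := by
      rw [coeff_reverse, revAt_invol]
    rw [h7, h6, coeff_one, coeff_X_pow]
    by_cases hn : n = M.charpoly.natDegree
    · rw [if_pos hn, if_pos]
      rw [hn, revAt_le le_rfl, Nat.sub_self]
    · rw [if_neg hn, if_neg]
      intro h8
      apply hn
      have h9 := congrArg (revAt M.charpoly.natDegree) h8
      rw [revAt_invol, revAt_le (Nat.zero_le _), Nat.sub_zero] at h9
      exact h9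
  have h6 := LinearMap.aeval_self_charpoly f
  rw [← LinearMap.charpoly_toMatrix f b, ← hM, h5, map_pow, aeval_X] at h6
  exact ⟨_, h6⟩

/-- the same over a domain -/
theorem nilpotent_of_trace' {W M : Type} [CommRing W] [IsDomain W] [CharZero W] [AddCommGroup M]
    [Module W M] [Module.Finite W M] [Module.Free W M] (f : Module.End W M)
    (h : ∀ n : ℕ, LinearMap.trace W M (f ^ (n + 1)) = 0) : ∃ m : ℕ, f ^ m = 0 := by
  have hc : CharZero (FractionRing W) :=
    charZero_of_injective_algebraMap (IsFractionRing.injective W (FractionRing W))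
  obtain ⟨m, hm⟩ := nilpotent_of_trace (K := FractionRing W)
    (Module.End.baseChangeHom W (FractionRing W) M f) (by
      intro n
      rw [← map_pow]
      have h1 := LinearMap.trace_baseChange (f ^ (n + 1)) (FractionRing W)
      rw [h n, map_zero] at h1
      exact h1)
  refine ⟨m, ?_⟩
  rw [← map_pow] at hm
  have hinj := LinearMap.baseChangeHom_injective W M (FractionRing W) (N := M)
  apply hinj
  rw [map_zero]
  exact hm

section Lattice

variable {W A M0 M1 : Type} [CommRing W] [IsDomain W] [CharZero W] [Ring A]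
  [AddCommGroup M0] [Module W M0] [Module.Finite W M0] [Module.Free W M0]
  [AddCommGroup M1] [Module W M1] [Module.Finite W M1] [Module.Free W M1]
  (ρ0 : A →+* Module.End W M0) (ρ1 : A →+* Module.End W M1)

theorem act_sum {J : Type} [Fintype J] {K : Type} [Field K] {V : Type} [AddCommGroup V] [Module K V]
    (ρ : A →+* Module.End K V) (l : J → A) (w : J → K) :
    Pool.Agent.Y121.CF.act K K ρ (∑ j, Finsupp.single (l j) (w j)) =
      ((∑ j, w j • ρ (l j) : Module.End K V)).baseChange K := by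
  classical
  have h1 : ∀ c : A →₀ K, Pool.Agent.Y121.CF.act K K ρ c =
      c.sum fun x a => a • (ρ x).baseChange K := fun c => rfl
  rw [h1, ← Finsupp.sum_finsetSum_index]
  · have h2 : ∀ f : Module.End K V, f.baseChange K = LinearMap.baseChangeHom K K V V f := fun f => rfl
    rw [h2, map_sum]
    refine Finset.sum_congr rfl fun j _ => ?_
    rw [Finsupp.sum_single_index (by rw [zero_smul]), map_smul]
    rfl
  · intro a
    rw [zero_smul]
  · intro a b1 b2
    rw [add_smul]

/-- a rational multiple of the projector -/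
theorem exists_multiple (euler : A → ℤ)
    (htr : ∀ z, (euler z : W) = LinearMap.trace W M0 (ρ0 z) - LinearMap.trace W M1 (ρ1 z))
    {J : Type} [Fintype J] (l : J → A) (w : J → W) (h0 : ∑ j, w j • ρ0 (l j) = 1)
    (h1 : ∑ j, w j • ρ1 (l j) = 0) : ∃ (a : A) (N : ℕ), N ≠ 0 ∧
      ρ0 a = (N : Module.End W M0) ∧ ρ1 a = 0 := by
  have hc : CharZero (FractionRing W) :=
    charZero_of_injective_algebraMap (IsFractionRing.injective W (FractionRing W))
  set K := FractionRing W
  set r0 : A →+* Module.End K (K ⊗[W] M0) :=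
    (Module.End.baseChangeHom W K M0).toRingHom.comp ρ0 with hr0
  set r1 : A →+* Module.End K (K ⊗[W] M1) :=
    (Module.End.baseChangeHom W K M1).toRingHom.comp ρ1 with hr1
  have e0 : ∀ z, r0 z = (ρ0 z).baseChange K := fun z => rfl
  have e1 : ∀ z, r1 z = (ρ1 z).baseChange K := fun z => rfl
  have hχ : ∀ x : A, ∃ q : ℚ, LinearMap.trace K _ (r0 x) - LinearMap.trace K _ (r1 x) = (q : K) := by
    intro x
    refine ⟨(euler x : ℚ), ?_⟩
    rw [e0, e1, LinearMap.trace_baseChange, LinearMap.trace_baseChange, ← map_sub, ← htr, map_intCast,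
      Rat.cast_intCast]
  have hcnc : Pool.Agent.Y121.CF.CNC K K r0 r1 := by
    refine ⟨∑ j, Finsupp.single (l j) (algebraMap W K (w j)), ?_, ?_⟩
    · rw [act_sum]
      have h2 : ∑ j, algebraMap W K (w j) • r0 (l j) = 1 := by
        have h3 := congrArg (Module.End.baseChangeHom W K M0) h0
        rw [map_one, map_sum] at h3
        rw [← h3]
        refine Finset.sum_congr rfl fun j _ => ?_
        rw [map_smul, algebraMap_smul]
        rfl
      rw [h2]
      exact LinearMap.baseChange_id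
    · rw [act_sum]
      have h2 : ∑ j, algebraMap W K (w j) • r1 (l j) = 0 := by
        have h3 := congrArg (Module.End.baseChangeHom W K M1) h1
        rw [map_zero, map_sum] at h3
        rw [← h3]
        refine Finset.sum_congr rfl fun j _ => ?_
        rw [map_smul, algebraMap_smul]
        rfl
      rw [h2]
      exact LinearMap.baseChange_zero
  obtain ⟨r, hr⟩ := Pool.Agent.Y121.CF.sep_int K K r0 r1 (Pool.Agent.Y121.CF.sep_of_cnc K K r0 r1 hcnc)
  obtain ⟨a, N, hN, ha0, ha1⟩ := Pool.Agent.Y121.CF.proj_of_sep r0 r1 hχ r hr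
  refine ⟨a, N, hN, ?_, ?_⟩
  · apply LinearMap.baseChangeHom_injective W M0 K (N := M0)
    have h2 : Module.End.baseChangeHom W K M0 (N : Module.End W M0) = (N : Module.End K (K ⊗[W] M0)) :=
      map_natCast _ N
    exact ha0.trans h2.symm
  · apply LinearMap.baseChangeHom_injective W M1 K (N := M1)
    rw [map_zero]
    exact ha1

/-- a `p`-integral multiple of the projector -/
theorem exists_prime_multiple (p : ℕ) [Fact p.Prime] (hpW : ¬ IsUnit (p : W)) (euler : A → ℤ)
    (htr : ∀ z, (euler z : W) = LinearMap.trace W M0 (ρ0 z) - LinearMap.trace W M1 (ρ1 z))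
    {J : Type} [Fintype J] (l : J → A) (w : J → W) (h0 : ∑ j, w j • ρ0 (l j) = 1)
    (h1 : ∑ j, w j • ρ1 (l j) = 0) : ∃ (a : A) (N : ℕ), ¬ p ∣ N ∧
      ρ0 a = (N : Module.End W M0) ∧ ρ1 a = 0 := by
  obtain ⟨a, N, hN, ha0, ha1⟩ := exists_multiple ρ0 ρ1 euler htr l w h0 h1
  set t0 := LinearMap.trace W M0 with ht0
  set t1 := LinearMap.trace W M1 with ht1
  -- the trace on the even part
  have hN0 : (N : W) ≠ 0 := Nat.cast_ne_zero.2 hN
  have hea : ∀ d, (euler (a * d) : W) = N * t0 (ρ0 d) := by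
    intro d
    rw [htr, map_mul ρ0, map_mul ρ1, ha0, ha1, zero_mul, map_zero, sub_zero, ← nsmul_eq_mul, map_nsmul,
      nsmul_eq_mul]
  have hw : ∀ d, ∑ j, w j * (euler (l j * d) : W) = t0 (ρ0 d) := by
    intro d
    have h2 : t0 ((∑ j, w j • ρ0 (l j)) * ρ0 d) - t1 ((∑ j, w j • ρ1 (l j)) * ρ1 d) =
        ∑ j, w j * (euler (l j * d) : W) := by
      rw [Finset.sum_mul, Finset.sum_mul, map_sum, map_sum, ← Finset.sum_sub_distrib]
      refine Finset.sum_congr rfl fun j _ => ?_
      rw [htr, map_mul ρ0, map_mul ρ1, smul_mul_assoc, smul_mul_assoc, map_smul, map_smul, smul_eq_mul,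
        smul_eq_mul, mul_sub]
    rw [← h2, h0, h1, one_mul, zero_mul, map_zero, sub_zero]
  obtain ⟨z, n, hn, hz⟩ := exists_int_solution (W := W) p hpW
    (fun (j : J) (d : A) => (N : ℤ) * euler (l j * d)) (fun d => euler (a * d)) w (by
      intro d
      rw [hea, ← hw d, Finset.mul_sum]
      refine Finset.sum_congr rfl fun j _ => ?_
      push_cast
      ring)
  obtain ⟨x, hx⟩ : ∃ x : A, x = ∑ j, z j • l j := ⟨_, rfl⟩
  -- `x` is numerically equivalent to `n` times the projector
  have hxd : ∀ d, t0 (ρ0 (x * d)) - t1 (ρ1 (x * d)) = n * t0 (ρ0 d) := by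
    intro d
    have h2 : t0 (ρ0 (x * d)) - t1 (ρ1 (x * d)) = ∑ j, (z j : W) * (euler (l j * d) : W) := by
      rw [hx, Finset.sum_mul, map_sum, map_sum, map_sum, map_sum, ← Finset.sum_sub_distrib]
      refine Finset.sum_congr rfl fun j _ => ?_
      rw [htr, smul_mul_assoc, map_zsmul, map_zsmul, map_zsmul, map_zsmul, zsmul_eq_mul, zsmul_eq_mul,
        mul_sub]
    have h3 := congrArg (Int.cast : ℤ → W) (hz d)
    push_cast at h3
    rw [hea] at h3
    rw [h2]
    apply mul_left_cancel₀ hN0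
    rw [Finset.mul_sum]
    have h4 : ∑ j, (N : W) * ((z j : W) * (euler (l j * d) : W)) =
        ∑ j, (z j : W) * ((N : W) * (euler (l j * d) : W)) :=
      Finset.sum_congr rfl fun j _ => by ring
    rw [h4, h3]
    ring
  -- multiply by the projectors
  have hlin0 : ∀ d, t0 ((ρ0 x - (n : Module.End W M0)) * ρ0 d) = 0 := by
    intro d
    have h2 : ∀ j, t0 (ρ0 x * ρ0 (l j * d)) - t1 (ρ1 x * ρ1 (l j * d)) = n * t0 (ρ0 (l j * d)) := by
      intro j
      rw [← map_mul, ← map_mul]
      exact hxd _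
    have h3 : ∑ j, w j * (t0 (ρ0 x * ρ0 (l j * d)) - t1 (ρ1 x * ρ1 (l j * d))) =
        t0 (ρ0 x * ρ0 d) := by
      have h4 : t0 (ρ0 x * ((∑ j, w j • ρ0 (l j)) * ρ0 d)) -
          t1 (ρ1 x * ((∑ j, w j • ρ1 (l j)) * ρ1 d)) =
          ∑ j, w j * (t0 (ρ0 x * ρ0 (l j * d)) - t1 (ρ1 x * ρ1 (l j * d))) := by
        rw [Finset.sum_mul, Finset.sum_mul, Finset.mul_sum, Finset.mul_sum, map_sum, map_sum,
          ← Finset.sum_sub_distrib]
        refine Finset.sum_congr rfl fun j _ => ?_
        rw [map_mul ρ0 (l j), map_mul ρ1 (l j), smul_mul_assoc, smul_mul_assoc, mul_smul_comm, mul_smul_comm, map_smul,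
          map_smul, smul_eq_mul, smul_eq_mul, mul_sub]
      rw [← h4, h0, h1, one_mul, zero_mul, mul_zero, map_zero, sub_zero]
    have h5 : ∑ j, w j * ((n : W) * t0 (ρ0 (l j * d))) = n * t0 (ρ0 d) := by
      have h6 : t0 ((∑ j, w j • ρ0 (l j)) * ρ0 d) = ∑ j, w j * t0 (ρ0 (l j * d)) := by
        rw [Finset.sum_mul, map_sum]
        refine Finset.sum_congr rfl fun j _ => ?_
        rw [map_mul ρ0, smul_mul_assoc, map_smul, smul_eq_mul]
      rw [h0, one_mul] at h6
      rw [h6, Finset.mul_sum]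
      exact Finset.sum_congr rfl fun j _ => by ring
    simp only [h2] at h3
    rw [h5] at h3
    have h7 : t0 ((n : Module.End W M0) * ρ0 d) = n * t0 (ρ0 d) := by
      rw [← zsmul_eq_mul, map_zsmul, zsmul_eq_mul]
    rw [sub_mul, map_sub, ← h3, h7, sub_self]
  have hlin1 : ∀ d, t1 (ρ1 x * ρ1 d) = 0 := by
    intro d
    have h2 := hxd d
    have h3 := hlin0 d
    have h7 : t0 ((n : Module.End W M0) * ρ0 d) = n * t0 (ρ0 d) := by
      rw [← zsmul_eq_mul, map_zsmul, zsmul_eq_mul]
    rw [sub_mul, map_sub, h7, ← map_mul] at h3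
    rw [← map_mul]
    linear_combination h3 - h2
  -- nilpotency
  obtain ⟨m0, hm0⟩ := nilpotent_of_trace' (ρ0 (x - (n : A))) (by
    intro m
    have h2 := hlin0 ((x - (n : A)) ^ m)
    rw [map_pow, map_sub, map_intCast, ← pow_succ'] at h2
    rw [map_sub, map_intCast]
    exact h2)
  obtain ⟨m1, hm1⟩ := nilpotent_of_trace' (ρ1 x) (by
    intro m
    have h2 := hlin1 (x ^ m)
    rw [map_pow, ← pow_succ'] at h2
    exact h2)
  -- the final element
  set M := m0 + m1 + 1 with hM
  have hA : ρ1 x ^ M = 0 := by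
    rw [hM, add_right_comm, pow_add, hm1, mul_zero]
  have hB : (ρ0 (x - (n : A))) ^ M = 0 := by
    rw [hM, add_assoc, pow_add, hm0, zero_mul]
  have hC : (ρ0 ((n : A) ^ M - x ^ M)) ^ M = 0 := by
    have hcomm : Commute (n : A) x := Int.cast_commute n x
    obtain ⟨y, hy, hy'⟩ : ∃ y : A, (n : A) ^ M - x ^ M = (x - (n : A)) * y ∧ Commute (x - (n : A)) y := by
      refine ⟨-∑ i ∈ Finset.range M, x ^ i * (n : A) ^ (M - 1 - i), ?_, ?_⟩
      · rw [mul_neg, hcomm.symm.mul_geom_sum₂, neg_sub]
      · apply Commute.neg_right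
        apply Commute.sum_right
        intro i _
        apply Commute.mul_right
        · exact ((Commute.refl x).sub_left hcomm).pow_right i
        · exact (hcomm.symm.sub_left (Commute.refl _)).pow_right _
    rw [hy, map_mul, Commute.mul_pow, hB, zero_mul]
    exact (show Commute (ρ0 (x - (n : A))) (ρ0 y) from by
      rw [commute_iff_eq, ← map_mul, ← map_mul, hy'.eq])
  have hpn : ¬ p ∣ (n.natAbs ^ M) ^ (2 * M) := by
    intro h
    have hp : p.Prime := Fact.out
    have h2 := hp.dvd_of_dvd_pow (hp.dvd_of_dvd_pow h)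
    exact hn (Int.natCast_dvd.2 h2)
  have hsq : (((n.natAbs ^ M) ^ (2 * M) : ℕ) : ℤ) = ((n ^ M) ^ M) * ((n ^ M) ^ M) := by
    rw [← pow_add, ← two_mul, ← pow_mul, ← pow_mul, Nat.cast_pow, mul_comm M (2 * M), mul_assoc 2 M M]
    rw [pow_mul, ← Nat.cast_pow, pow_mul n]
    congr 1
    rw [Nat.cast_pow, Int.natCast_natAbs, sq_abs]
  refine ⟨(n : A) ^ (M * M) * ((n : A) ^ (M * M) - ((n : A) ^ M - x ^ M) ^ M), (n.natAbs ^ M) ^ (2 * M), hpn, ?_, ?_⟩
  · rw [map_mul, map_sub, map_pow ρ0 _ M, hC, sub_zero, map_pow, map_intCast]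
    have h2 : (((n.natAbs ^ M) ^ (2 * M) : ℕ) : Module.End W M0) =
        ((((n.natAbs ^ M) ^ (2 * M) : ℕ) : ℤ) : Module.End W M0) := (Int.cast_natCast _).symm
    rw [h2, hsq]
    push_cast
    rw [pow_mul]
  · have h2 : ρ1 ((n : A) ^ (M * M) - ((n : A) ^ M - x ^ M) ^ M) = 0 := by
      rw [map_sub, map_pow ρ1 _ M, map_sub, map_pow ρ1 x, hA, sub_zero, ← map_pow, ← pow_mul, sub_self]
    rw [map_mul, h2, mul_zero]

end Lattice

end Pool.Agent.H938.BK
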