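import Pool.Agent.H938.BK.Red
import Pool.Agent.H938.BK.Krull
import Pool.Agent.H938.BK.Lat

/-!
`C_NC(𝒜)` in characteristic `p`: the proof of the equivalences.
-/

set_option autoImplicit false

namespace Pool.Agent.H938.BK

open TensorProduct

section Witt

variable {p : ℕ} [Fact p.Prime] {k : Type} [Field k] [CharP k p]

theorem not_isUnit_p : ¬ IsUnit (p : WittVector p k) := by
  intro h
  have h1 := h.map (WittVector.constantCoeff (p := p) (R := k))
  rw [map_natCast, CharP.cast_eq_zero] at h1
  exact not_isUnit_zero h1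

theorem charZero_witt : CharZero (WittVector p k) := by
  obtain ⟨q, hq⟩ := CharP.exists (WittVector p k)
  rcases CharP.char_is_prime_or_zero (WittVector p k) q with h | h
  · exfalso
    have h1 : (q : k) = 0 := by
      have h2 := congrArg (WittVector.constantCoeff (p := p) (R := k))
        (CharP.cast_eq_zero (WittVector p k) q)
      rwa [map_natCast, map_zero] at h2
    have h2 : p ∣ q := (CharP.cast_eq_zero_iff k p q).1 h1
    have h3 : p = q := (Nat.prime_dvd_prime_iff_eq Fact.out h).1 h2
    have h4 := WittVector.p_nonzero p k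
    subst h3
    exact h4 (CharP.cast_eq_zero (WittVector p k) p)
  · subst h
    exact CharP.charP_to_charZero (WittVector p k)

theorem free_of_torsionFree [PerfectRing k p] {M : Type} [AddCommGroup M]
    [Module (WittVector p k) M] [Module.Finite (WittVector p k) M]
    (h : ∀ x : M, (p : WittVector p k) • x = 0 → x = 0) : Module.Free (WittVector p k) M := by
  have h1 : Module.IsTorsionFree (WittVector p k) M := by
    rw [Module.isTorsionFree_iff_smul_eq_zero]
    intro a x hax
    by_cases ha : a = 0
    · exact Or.inl ha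
    right
    obtain ⟨n, u, hu⟩ := IsDiscreteValuationRing.eq_unit_mul_pow_irreducible ha
      (WittVector.irreducible p (k := k))
    rw [hu, mul_smul] at hax
    have h2 : (p : WittVector p k) ^ n • x = 0 := by
      have h3 : ((u⁻¹ : (WittVector p k)ˣ) : WittVector p k) • ((u : WittVector p k) •
        ((p : WittVector p k) ^ n • x)) = 0 := by rw [hax, smul_zero]
      rwa [smul_smul, Units.inv_mul, one_smul] at h3
    clear hu hax
    induction n with
    | zero => rwa [pow_zero, one_smul] at h2
    | succ n ih =>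
      rw [pow_succ', mul_smul] at h2
      exact ih (h _ h2)
  exact Module.free_of_finite_type_torsion_free'

end Witt

section Separated

variable {k A : Type} [Field k] [Ring A] {H : SuperRep k A}

theorem kunneth_of (F L : Type) [Field F] [Field L] [Algebra F L] [Algebra k L]
    (h : H.KunnethPrimeField) : H.Kunneth F L := by
  classical
  obtain ⟨z, h0, h1⟩ := h
  refine ⟨Finsupp.single z 1, ?_, ?_⟩
  · rw [operator, Finsupp.support_single z (one_ne_zero' F), Finset.sum_singleton,
      Finsupp.single_eq_same, map_one, one_smul, h0]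
    exact LinearMap.baseChange_id
  · rw [operator, Finsupp.support_single z (one_ne_zero' F), Finset.sum_singleton,
      Finsupp.single_eq_same, map_one, one_smul, h1]
    exact LinearMap.baseChange_zero

/-- the span of a monoid of operators, as a subalgebra -/
theorem span_range_eq_adjoin {L A E : Type} [Field L] [Semiring A] [Semiring E] [Algebra L E]
    (φ : A →+* E) : Submodule.span L (Set.range φ) =
      Subalgebra.toSubmodule (Algebra.adjoin L (Set.range φ)) := by
  rw [Algebra.adjoin_eq_span]
  congr 1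
  have h2 : Set.range φ = ((MonoidHom.mrange (φ : A →* E) : Submonoid E) : Set E) := by
    rw [MonoidHom.coe_mrange]
    rfl
  rw [h2, Submonoid.closure_eq]

theorem aeval_mem_of_mem {L E : Type} [Field L] [Semiring E] [Algebra L E] (B : Subalgebra L E)
    {x : E} (hx : x ∈ B) (P : Polynomial L) : Polynomial.aeval x P ∈ B := by
  rw [Polynomial.aeval_eq_sum_range]
  exact B.sum_mem fun i _ => B.smul_mem (B.pow_mem hx i) _

theorem kunneth_of_separated (L : Type) [Field L] [Algebra k L] (h : H.Separated L) :
    H.Kunneth L L := by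
  classical
  obtain ⟨c, P, Q, ⟨u, v, huv⟩, hP, hQ⟩ := h
  let φ0 : A →+* Module.End L (L ⊗[k] H.Even) :=
    (Module.End.baseChangeHom k L H.Even).toRingHom.comp H.actEven
  let φ1 : A →+* Module.End L (L ⊗[k] H.Odd) :=
    (Module.End.baseChangeHom k L H.Odd).toRingHom.comp H.actOdd
  let φ := φ0.prod φ1
  have hfin : ∀ c' : A →₀ L, (c'.sum fun z t => t • φ z) =
      (operator L L H.actEven c', operator L L H.actOdd c') := by
    intro c'
    rw [Finsupp.sum]
    refine Prod.ext ?_ ?_
    · rw [Prod.fst_sum]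
      rfl
    · rw [Prod.snd_sum]
      rfl
  have h1 : (operator L L H.actEven c, operator L L H.actOdd c) ∈ Algebra.adjoin L (Set.range φ) := by
    have h2 : (operator L L H.actEven c, operator L L H.actOdd c) ∈
        Submodule.span L (Set.range φ) := by
      rw [← hfin]
      exact Submodule.sum_mem _ fun z _ => Submodule.smul_mem _ _ (Submodule.subset_span ⟨z, rfl⟩)
    have h4 := span_range_eq_adjoin (L := L) φ
    exact (SetLike.ext_iff.1 h4 _).1 h2
  have h2 : Polynomial.aeval (operator L L H.actEven c, operator L L H.actOdd c) (v * Q) =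
      (1, 0) := by
    rw [Polynomial.aeval_prod_apply]
    refine Prod.ext ?_ ?_
    · show Polynomial.aeval (operator L L H.actEven c) (v * Q) = 1
      have h3 := congrArg (Polynomial.aeval (operator L L H.actEven c)) huv
      rw [map_add, map_mul, hP, mul_zero, zero_add, map_one] at h3
      exact h3
    · show Polynomial.aeval (operator L L H.actOdd c) (v * Q) = 0
      rw [map_mul, hQ, mul_zero]
  have h3 : ((1, 0) : Module.End L (L ⊗[k] H.Even) × Module.End L (L ⊗[k] H.Odd)) ∈
      Submodule.span L (Set.range φ) := by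
    have h4 := span_range_eq_adjoin (L := L) φ
    refine (SetLike.ext_iff.1 h4 _).2 ?_
    rw [← h2]
    exact aeval_mem_of_mem _ h1 _
  rw [Finsupp.mem_span_range_iff_exists_finsupp] at h3
  obtain ⟨c', hc'⟩ := h3
  rw [hfin, Prod.mk.injEq] at hc'
  exact ⟨c', hc'.1, hc'.2⟩

theorem separated_of (L : Type) [Field L] [Algebra k L] (h : H.KunnethPrimeField) :
    H.Separated L := by
  obtain ⟨c, h0, h1⟩ := kunneth_of L L h
  refine ⟨c, Polynomial.X - 1, Polynomial.X, ⟨-1, 1, by ring⟩, ?_, ?_⟩
  · rw [h0, map_sub, Polynomial.aeval_X, map_one, sub_self]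
  · rw [h1, Polynomial.aeval_X]

end Separated

namespace Saturated

variable {p : ℕ} [Fact p.Prime] {k : Type} [Field k] [CharP k p] [PerfectRing k p]
  {K : Type} [Field K] [Algebra (WittVector p k) K] {𝒜 : Saturated p k K}

theorem torsionFree_of (a : 𝒜.Corr →₀ k) (h0 : comb 𝒜.HP.actEven a = 1)
    (h1 : comb 𝒜.HP.actOdd a = 0) : 𝒜.TP.TorsionFree p := by
  obtain ⟨w, rfl⟩ := exists_lift (W := WittVector p k) WittVector.constantCoeff
    (WittVector.constantCoeff_surjective p) a
  have h := 𝒜.isSaturated
  have := h.finEven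
  have := h.finOdd
  constructor
  · intro x hx
    refine torsionFree_aux (p : WittVector p k) 𝒜.redEven 𝒜.bdryOdd (fun x y => map_sub _ x y)
      h.exactEven.ker_red h.exactOdd.range_bdry (comb 𝒜.TP.actEven w) 0 1 ?_ ?_ ?_ x hx
    · rw [zero_sub]
      exact isUnit_one.neg
    · intro x
      rw [red_comb h.redEven, h0, one_smul, Module.End.one_apply]
    · intro y
      rw [← bdry_comb h.bdryOdd, h1, LinearMap.zero_apply, map_zero, zero_smul]
  · intro x hx
    refine torsionFree_aux (p : WittVector p k) 𝒜.redOdd 𝒜.bdryEven (fun x y => map_sub _ x y)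
      h.exactOdd.ker_red h.exactEven.range_bdry (comb 𝒜.TP.actOdd w) 1 0 ?_ ?_ ?_ x hx
    · rw [sub_zero]
      exact isUnit_one
    · intro x
      rw [red_comb h.redOdd, h1, zero_smul, LinearMap.zero_apply, map_zero]
    · intro y
      rw [← bdry_comb h.bdryEven, h0, one_smul, Module.End.one_apply]

theorem projInSpan_of (htf : 𝒜.TP.TorsionFree p) (a : 𝒜.Corr →₀ k)
    (h0 : comb 𝒜.HP.actEven a = 1) (h1 : comb 𝒜.HP.actOdd a = 0) : 𝒜.TP.ProjInSpan := by
  obtain ⟨w, rfl⟩ := exists_lift (W := WittVector p k) WittVector.constantCoeff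
    (WittVector.constantCoeff_surjective p) a
  have h := 𝒜.isSaturated
  have := h.finEven
  have := h.finOdd
  have := free_of_torsionFree htf.1
  have := free_of_torsionFree htf.2
  have h2 := proj_mem_span 𝒜.TP.actEven 𝒜.TP.actOdd (p : WittVector p k) not_isUnit_p w
    (fun x => (h.exactEven.ker_red _).1 (by
      have h3 := red_comb h.redEven w x
      rw [h0, Module.End.one_apply] at h3
      rw [map_sub, sub_eq_zero]
      exact h3))
    (fun x => (h.exactOdd.ker_red _).1 (by
      have h3 := red_comb h.redOdd w x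
      rw [h1, LinearMap.zero_apply] at h3
      exact h3))
  rw [Finsupp.mem_span_range_iff_exists_finsupp] at h2
  obtain ⟨c, hc⟩ := h2
  refine ⟨c, ?_, ?_⟩
  · have h3 := congrArg Prod.fst hc
    rw [Finsupp.sum, Prod.fst_sum] at h3
    exact h3
  · have h3 := congrArg Prod.snd hc
    rw [Finsupp.sum, Prod.snd_sum] at h3
    exact h3

theorem trace_formula [IsFractionRing (WittVector p k) K] (htf : 𝒜.TP.TorsionFree p)
    (z : 𝒜.Corr) : ((𝒜.euler z : ℤ) : WittVector p k) =
      LinearMap.trace (WittVector p k) 𝒜.TP.Even (𝒜.TP.actEven z) -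
      LinearMap.trace (WittVector p k) 𝒜.TP.Odd (𝒜.TP.actOdd z) := by
  have h := 𝒜.isSaturated
  have := h.finEven
  have := h.finOdd
  have := free_of_torsionFree htf.1
  have := free_of_torsionFree htf.2
  apply IsFractionRing.injective (WittVector p k) K
  rw [map_intCast, map_sub, ← LinearMap.trace_baseChange, ← LinearMap.trace_baseChange]
  exact h.lefschetz z

theorem projIntegral_of [IsFractionRing (WittVector p k) K] (htf : 𝒜.TP.TorsionFree p)
    (h : 𝒜.TP.ProjInSpan) : 𝒜.TP.ProjIntegral p K := by
  classical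
  have h' := 𝒜.isSaturated
  have := h'.finEven
  have := h'.finOdd
  have := free_of_torsionFree htf.1
  have := free_of_torsionFree htf.2
  have := charZero_witt (p := p) (k := k)
  obtain ⟨c, h0, h1⟩ := h
  obtain ⟨a, N, hN, ha0, ha1⟩ := exists_prime_multiple 𝒜.TP.actEven 𝒜.TP.actOdd p not_isUnit_p
    𝒜.euler (trace_formula htf) (fun j : c.support => (j : 𝒜.Corr)) (fun j => c j) (by
      rw [Finsupp.sum, ← Finset.sum_coe_sort] at h0
      exact h0) (by
      rw [Finsupp.sum, ← Finset.sum_coe_sort] at h1
      exact h1)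
  refine ⟨a, N, hN, ?_, ?_⟩
  · rw [ha0]
    exact map_natCast (Module.End.baseChangeHom (WittVector p k) K 𝒜.TP.Even) N
  · rw [ha1]
    exact LinearMap.baseChange_zero

theorem kunnethPrimeField_of [IsFractionRing (WittVector p k) K] (htf : 𝒜.TP.TorsionFree p)
    (hi : 𝒜.TP.ProjIntegral p K) : 𝒜.HP.KunnethPrimeField := by
  have h := 𝒜.isSaturated
  have := h.finEven
  have := h.finOdd
  have := free_of_torsionFree htf.1
  have := free_of_torsionFree htf.2
  obtain ⟨z, n, hn, hz0, hz1⟩ := hi
  have h0 : 𝒜.TP.actEven z = (n : Module.End (WittVector p k) 𝒜.TP.Even) := by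
    apply LinearMap.baseChangeHom_injective (WittVector p k) 𝒜.TP.Even K (N := 𝒜.TP.Even)
    have h2 : Module.End.baseChangeHom (WittVector p k) K 𝒜.TP.Even
        (n : Module.End (WittVector p k) 𝒜.TP.Even) = (n : Module.End _ _) :=
      map_natCast _ n
    exact hz0.trans h2.symm
  have h1 : 𝒜.TP.actOdd z = 0 := by
    apply LinearMap.baseChangeHom_injective (WittVector p k) 𝒜.TP.Odd K (N := 𝒜.TP.Odd)
    rw [map_zero]
    exact hz1
  have hcop : IsCoprime (n : ℤ) (p : ℤ) := by
    rw [Nat.isCoprime_iff_coprime, Nat.coprime_comm]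
    exact (Nat.Prime.coprime_iff_not_dvd Fact.out).2 hn
  obtain ⟨a, b, hab⟩ := hcop
  have hk : (a : k) * (n : k) = 1 := by
    have h2 := congrArg (Int.cast : ℤ → k) hab
    push_cast at h2
    rw [CharP.cast_eq_zero k p, mul_zero, add_zero] at h2
    exact h2
  refine ⟨a • z, ?_, ?_⟩
  · refine LinearMap.ext fun y => ?_
    obtain ⟨x, rfl⟩ := (h.exactEven.ker_bdry y).1
      (htf.2 _ ((h.exactEven.range_bdry _).2 ⟨y, rfl⟩))
    rw [map_zsmul, LinearMap.smul_apply, ← h.redEven.act, h0, ← nsmul_one, LinearMap.smul_apply,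
      Module.End.one_apply, map_nsmul, Module.End.one_apply, ← Nat.cast_smul_eq_nsmul k,
      ← Int.cast_smul_eq_zsmul k, smul_smul, hk, one_smul]
  · refine LinearMap.ext fun y => ?_
    obtain ⟨x, rfl⟩ := (h.exactOdd.ker_bdry y).1
      (htf.1 _ ((h.exactOdd.range_bdry _).2 ⟨y, rfl⟩))
    rw [map_zsmul, LinearMap.smul_apply, ← h.redOdd.act, h1, LinearMap.zero_apply, map_zero,
      smul_zero, LinearMap.zero_apply]

theorem main [IsFractionRing (WittVector p k) K] (𝒜 : Saturated p k K) (F L : Type) [Field F]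
    [Field L] [Algebra F L] [Algebra k L] :
    [𝒜.HP.Kunneth F L, 𝒜.HP.KunnethPrimeField, 𝒜.HP.Separated L,
      𝒜.TP.TorsionFree p ∧ 𝒜.TP.ProjInSpan, 𝒜.TP.TorsionFree p ∧ 𝒜.TP.ProjIntegral p K].TFAE := by
  tfae_have 1 → 4 := by
    intro h
    obtain ⟨a, h0, h1⟩ := exists_coeff 𝒜.HP h
    have htf := torsionFree_of a h0 h1
    exact ⟨htf, projInSpan_of htf a h0 h1⟩
  tfae_have 4 → 5 := fun h => ⟨h.1, projIntegral_of h.1 h.2⟩
  tfae_have 5 → 2 := fun h => kunnethPrimeField_of h.1 h.2
  tfae_have 2 → 1 := kunneth_of F L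
  tfae_have 2 → 3 := separated_of L
  tfae_have 3 → 2 := by
    intro h
    obtain ⟨a, h0, h1⟩ := exists_coeff 𝒜.HP (kunneth_of_separated L h)
    have htf := torsionFree_of a h0 h1
    exact kunnethPrimeField_of htf (projIntegral_of htf (projInSpan_of htf a h0 h1))
  tfae_finish

end Saturated

end Pool.Agent.H938.BK
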