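import Pool.Agent.H938.BK.Defs

/-!
`C_NC(𝒜)` with any coefficients implies that `TP(𝒜)` is torsion-free.
-/

set_option autoImplicit false

namespace Pool.Agent.H938.BK

open TensorProduct

/-- a retraction of a field extension -/
theorem exists_retraction (k L : Type) [Field k] [Field L] [Algebra k L] :
    ∃ l : L →ₗ[k] k, l 1 = 1 := by
  have hinj : LinearMap.ker (Algebra.linearMap k L) = ⊥ := by
    rw [LinearMap.ker_eq_bot]
    exact (algebraMap k L).injective
  obtain ⟨g, hg⟩ := (Algebra.linearMap k L).exists_leftInverse_of_injective hinj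
  refine ⟨g, ?_⟩
  have h1 := LinearMap.congr_fun hg 1
  rw [LinearMap.comp_apply, Algebra.linearMap_apply, map_one] at h1
  exact h1

section

variable {W k A M V N : Type} [CommRing W] [Field k] [Ring A] [AddCommGroup M] [Module W M]
  [AddCommGroup V] [Module k V] [AddCommGroup N] [Module W N]

/-- the combination of operators with given coefficients -/
noncomputable def comb {R P : Type} [CommRing R] [AddCommGroup P] [Module R P]
    (ρ : A →+* Module.End R P) (w : A →₀ R) : Module.End R P :=
  w.sum fun z t => t • ρ z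

/-- from coefficients in `F` to coefficients in `k` -/
theorem operator_retract {F L : Type} [Field F] [Field L] [Algebra F L] [Algebra k L]
    (l : L →ₗ[k] k) (σ : A →+* Module.End k V) (c : A →₀ F) (v : V) :
    comb σ (c.mapRange (fun x => l (algebraMap F L x)) (by rw [map_zero, map_zero])) v =
      (TensorProduct.lid k V) (LinearMap.rTensor V l (operator F L σ c (1 ⊗ₜ[k] v))) := by
  classical
  rw [comb, Finsupp.sum_mapRange_index (fun z => by rw [zero_smul]), Finsupp.sum, operator,
    LinearMap.sum_apply, LinearMap.sum_apply, map_sum, map_sum]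
  refine Finset.sum_congr rfl fun z _ => ?_
  rw [LinearMap.smul_apply, LinearMap.smul_apply, LinearMap.baseChange_tmul,
    TensorProduct.smul_tmul', smul_eq_mul, mul_one, LinearMap.rTensor_tmul,
    TensorProduct.lid_tmul]

theorem exists_coeff (H : SuperRep k A) {F L : Type} [Field F] [Field L] [Algebra F L] [Algebra k L]
    (h : H.Kunneth F L) : ∃ a : A →₀ k, comb H.actEven a = 1 ∧ comb H.actOdd a = 0 := by
  obtain ⟨c, h0, h1⟩ := h
  obtain ⟨l, hl⟩ := exists_retraction k L
  refine ⟨c.mapRange (fun x => l (algebraMap F L x)) (by rw [map_zero, map_zero]), ?_, ?_⟩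
  · refine LinearMap.ext fun v => ?_
    rw [operator_retract, h0, Module.End.one_apply, LinearMap.rTensor_tmul, TensorProduct.lid_tmul,
      hl, one_smul, Module.End.one_apply]
  · refine LinearMap.ext fun v => ?_
    rw [operator_retract, h1, LinearMap.zero_apply, map_zero, map_zero, LinearMap.zero_apply]

omit [Ring A] in
/-- lifting the coefficients along a surjective homomorphism -/
theorem exists_lift (π : W →+* k) (hπ : Function.Surjective π) (a : A →₀ k) :
    ∃ w : A →₀ W, a = w.mapRange π (map_zero π) := by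
  classical
  set s : k → W := fun x => if x = 0 then 0 else Function.surjInv hπ x with hs
  have hs0 : s 0 = 0 := by rw [hs]; exact if_pos rfl
  have hsx : ∀ x, π (s x) = x := by
    intro x
    by_cases hx : x = 0
    · rw [hx, hs0, map_zero]
    · rw [hs]
      show π (if x = 0 then 0 else Function.surjInv hπ x) = x
      rw [if_neg hx]
      exact Function.surjInv_eq hπ x
  refine ⟨a.mapRange s hs0, ?_⟩
  ext z
  rw [Finsupp.mapRange_apply, Finsupp.mapRange_apply, hsx]

theorem red_comb {π : W →+* k} {ρ : A →+* Module.End W M} {σ : A →+* Module.End k V}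
    {red : M →+ V} (h : IsReduction π ρ σ red) (w : A →₀ W) (x : M) :
    red (comb ρ w x) = comb σ (w.mapRange π (map_zero π)) (red x) := by
  classical
  rw [comb, comb, Finsupp.sum_mapRange_index (fun z => by rw [zero_smul]), Finsupp.sum, Finsupp.sum,
    LinearMap.sum_apply, LinearMap.sum_apply, map_sum]
  refine Finset.sum_congr rfl fun z _ => ?_
  rw [LinearMap.smul_apply, LinearMap.smul_apply, h.smul, h.act]

theorem bdry_comb {π : W →+* k} {σ : A →+* Module.End k V} {ρ : A →+* Module.End W N}
    {bdry : V →+ N} (h : IsBoundary π σ ρ bdry) (w : A →₀ W) (y : V) :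
    bdry (comb σ (w.mapRange π (map_zero π)) y) = comb ρ w (bdry y) := by
  classical
  rw [comb, comb, Finsupp.sum_mapRange_index (fun z => by rw [zero_smul]), Finsupp.sum, Finsupp.sum,
    LinearMap.sum_apply, LinearMap.sum_apply, map_sum]
  refine Finset.sum_congr rfl fun z _ => ?_
  rw [LinearMap.smul_apply, LinearMap.smul_apply, h.smul, h.act]

/-- the torsion of a finitely generated module is bounded -/
theorem exists_bound [IsNoetherianRing W] [Module.Finite W M] (p : W) :
    ∃ N : ℕ, ∀ (n : ℕ) (x : M), p ^ n • x = 0 → p ^ N • x = 0 := by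
  let f : ℕ →o Submodule W M :=
    ⟨fun n => LinearMap.ker (LinearMap.lsmul W M (p ^ n)), by
      intro n m hnm x hx
      rw [LinearMap.mem_ker, LinearMap.lsmul_apply] at hx ⊢
      rw [← Nat.sub_add_cancel hnm, pow_add, mul_smul, hx, smul_zero]⟩
  obtain ⟨N, hN⟩ := monotone_stabilizes_iff_noetherian.mpr (inferInstance : IsNoetherian W M) f
  refine ⟨N, fun n x hx => ?_⟩
  rcases le_total N n with h | h
  · have h1 : x ∈ f n := by
      show x ∈ LinearMap.ker (LinearMap.lsmul W M (p ^ n))
      rw [LinearMap.mem_ker, LinearMap.lsmul_apply, hx]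
    rw [← hN n h] at h1
    have h2 : x ∈ LinearMap.ker (LinearMap.lsmul W M (p ^ N)) := h1
    rwa [LinearMap.mem_ker, LinearMap.lsmul_apply] at h2
  · rw [← Nat.sub_add_cancel h, pow_add, mul_smul, hx, smul_zero]

omit [AddCommGroup N] [Module W N] in
/-- the main point: an operator which is `e'` on the reduction of `M` and `e` on the torsion of `M`
coming from the boundary, with `e' ≠ e` -/
theorem torsionFree_aux [IsNoetherianRing W] [Module.Finite W M] (p : W) (red : M → V)
    (bdry : N → M) (hred : ∀ x y, red (x - y) = red x - red y)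
    (hker : ∀ x, red x = 0 ↔ ∃ y, x = p • y) (hrange : ∀ x, p • x = 0 ↔ ∃ y, bdry y = x)
    (Z : Module.End W M) (e e' : W) (hee : IsUnit (e - e'))
    (hr : ∀ x, red (Z x) = red (e' • x)) (hb : ∀ y, Z (bdry y) = e • bdry y) (x : M)
    (hx : p • x = 0) : x = 0 := by
  classical
  by_contra hx0
  have hex := exists_bound (M := M) p
  set N := Nat.find hex with hN
  have hNs := Nat.find_spec hex
  rw [← hN] at hNs
  have hNpos : N ≠ 0 := by
    intro h
    rw [h] at hNs
    apply hx0
    have h2 := hNs 1 x (by rwa [pow_one])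
    rwa [pow_zero, one_smul] at h2
  obtain ⟨m, hm⟩ := Nat.exists_eq_succ_of_ne_zero hNpos
  have hmin := Nat.find_min hex (m := m) (by omega)
  push Not at hmin
  obtain ⟨n, v, hv, hv'⟩ := hmin
  have hvN := hNs n v hv
  set u := p ^ m • v with hu
  have hpu : p • u = 0 := by
    rw [hu, smul_smul, ← pow_succ', ← Nat.succ_eq_add_one, ← hm, hvN]
  obtain ⟨y, hy⟩ := (hrange u).1 hpu
  have hA : Z u = e • u := by rw [← hy, hb]
  have hB : Z u = e' • u := by
    have h2 : red (Z v - e' • v) = 0 := by
      rw [hred, hr, sub_self]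
    obtain ⟨x', hx'⟩ := (hker _).1 h2
    have h3 : p ^ (N + 1) • x' = 0 := by
      rw [pow_succ, mul_smul, ← hx', smul_sub, ← map_smul, hvN, map_zero, zero_sub, smul_comm, hvN,
        smul_zero, neg_zero]
    have h4 := hNs (N + 1) x' h3
    have h5 : p ^ m • (Z v - e' • v) = 0 := by
      rw [hx', smul_smul, ← pow_succ, ← Nat.succ_eq_add_one, ← hm, h4]
    rw [smul_sub, ← map_smul, smul_comm, ← hu] at h5
    exact sub_eq_zero.1 h5
  have h2 : (e - e') • u = 0 := by rw [sub_smul, ← hA, ← hB, sub_self]
  exact hv' ((hee.smul_eq_zero).1 h2)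

end

end Pool.Agent.H938.BK
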